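import Pool.Agent.H948.HS.Stm

/-!
# Few bad blocks imply many cone times
-/

set_option autoImplicit false

namespace Pool.Agent.H549.HS

open Pool.Agent.H948.HS
open scoped Classical

/-! ### The covering lemma -/

/-- `j` starts an interval with many elements of `P`. -/
def VF (P : ℕ → Prop) (η : ℝ) (K j : ℕ) : Prop :=
  ∃ r : ℕ, 1 ≤ r ∧ j + r ≤ K ∧ η * r < (((Finset.Ico j (j + r)).filter P).card : ℝ)

/-- `j` ends an interval with many elements of `P`. -/
def VB (P : ℕ → Prop) (η : ℝ) (j : ℕ) : Prop :=
  ∃ r : ℕ, 1 ≤ r ∧ r ≤ j ∧ η * r < (((Finset.Ico (j - r) j).filter P).card : ℝ)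

theorem card_split (P : ℕ → Prop) {a b c : ℕ} (h1 : a ≤ b) (h2 : b ≤ c) :
    ((Finset.Ico a c).filter P).card =
      ((Finset.Ico a b).filter P).card + ((Finset.Ico b c).filter P).card := by
  rw [← Finset.Ico_union_Ico_eq_Ico h1 h2, Finset.filter_union, Finset.card_union_of_disjoint]
  exact Finset.disjoint_filter_filter (Finset.Ico_disjoint_Ico_consecutive a b c)

theorem cover_fwd (P : ℕ → Prop) {η : ℝ} (hη : 0 < η) (K : ℕ) : ∀ d a : ℕ, a + d = K →
    η * (((Finset.Ico a K).filter (VF P η K)).card : ℝ) ≤
      (((Finset.Ico a K).filter P).card : ℝ) := by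
  intro d
  induction d using Nat.strong_induction_on with
  | _ d ih =>
    intro a ha
    rcases Nat.eq_zero_or_pos d with rfl | hd
    · have h1 : Finset.Ico a K = ∅ := Finset.Ico_eq_empty (by omega)
      rw [h1]
      simp
    · by_cases hV : VF P η K a
      · obtain ⟨r, hr1, hr2, hr3⟩ := hV
        have h1 := ih (d - r) (by omega) (a + r) (by omega)
        have h2 := card_split P (a := a) (b := a + r) (c := K) (by omega) hr2
        have h3 := card_split (VF P η K) (a := a) (b := a + r) (c := K) (by omega) hr2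
        have h4 : ((Finset.Ico a (a + r)).filter (VF P η K)).card ≤ r := by
          refine (Finset.card_filter_le _ _).trans ?_
          rw [Nat.card_Ico]
          omega
        have h5 : (((Finset.Ico a (a + r)).filter (VF P η K)).card : ℝ) ≤ r := by
          exact_mod_cast h4
        rw [h2, h3]
        push_cast
        have h6 := mul_le_mul_of_nonneg_left h5 hη.le
        linarith
      · have h1 := ih (d - 1) (by omega) (a + 1) (by omega)
        have h2 := card_split P (a := a) (b := a + 1) (c := K) (by omega) (by omega)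
        have h3 := card_split (VF P η K) (a := a) (b := a + 1) (c := K) (by omega) (by omega)
        have h4 : ((Finset.Ico a (a + 1)).filter (VF P η K)).card = 0 := by
          rw [Finset.card_eq_zero, Finset.filter_eq_empty_iff]
          intro x hx
          rw [Finset.mem_Ico] at hx
          have : x = a := by omega
          rw [this]
          exact hV
        rw [h2, h3, h4, zero_add]
        push_cast
        have h5 : (0 : ℝ) ≤ (((Finset.Ico a (a + 1)).filter P).card : ℝ) := Nat.cast_nonneg _
        linarith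

theorem cover_bwd (P : ℕ → Prop) {η : ℝ} (hη : 0 < η) : ∀ b : ℕ,
    η * (((Finset.Ico 0 (b + 1)).filter (VB P η)).card : ℝ) ≤
      (((Finset.Ico 0 b).filter P).card : ℝ) := by
  intro b
  induction b using Nat.strong_induction_on with
  | _ b ih =>
    by_cases hV : VB P η b
    · obtain ⟨r, hr1, hr2, hr3⟩ := hV
      have h1 := ih (b - r) (by omega)
      have h2 := card_split P (a := 0) (b := b - r) (c := b) (by omega) (by omega)
      have h3 := card_split (VB P η) (a := 0) (b := b - r + 1) (c := b + 1) (by omega) (by omega)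
      have h4 : ((Finset.Ico (b - r + 1) (b + 1)).filter (VB P η)).card ≤ r := by
        refine (Finset.card_filter_le _ _).trans ?_
        rw [Nat.card_Ico]
        omega
      have h5 : (((Finset.Ico (b - r + 1) (b + 1)).filter (VB P η)).card : ℝ) ≤ r := by
        exact_mod_cast h4
      rw [h2, h3]
      push_cast
      have h6 := mul_le_mul_of_nonneg_left h5 hη.le
      linarith
    · rcases Nat.eq_zero_or_pos b with rfl | hb
      · have h4 : ((Finset.Ico 0 (0 + 1)).filter (VB P η)).card = 0 := by
          rw [Finset.card_eq_zero, Finset.filter_eq_empty_iff]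
          intro x hx
          rw [Finset.mem_Ico] at hx
          have : x = 0 := by omega
          rw [this]
          exact hV
        rw [h4]
        simp
      · have h1 := ih (b - 1) (by omega)
        have e : b - 1 + 1 = b := by omega
        rw [e] at h1
        have h2 := card_split P (a := 0) (b := b - 1) (c := b) (by omega) (by omega)
        have h3 := card_split (VB P η) (a := 0) (b := b) (c := b + 1) (by omega) (by omega)
        have h4 : ((Finset.Ico b (b + 1)).filter (VB P η)).card = 0 := by
          rw [Finset.card_eq_zero, Finset.filter_eq_empty_iff]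
          intro x hx
          rw [Finset.mem_Ico] at hx
          have : x = b := by omega
          rw [this]
          exact hV
        rw [h2, h3, h4, add_zero]
        push_cast
        have h5 : (0 : ℝ) ≤ (((Finset.Ico (b - 1) b).filter P).card : ℝ) := Nat.cast_nonneg _
        linarith

/-! ### Good times are cone times -/

theorem block_bound {m : ℕ} {v : ℝ} (hv : 0 < v) (hv1 : v ≤ 1) (l : ℕ) (u : Om m) (i : ℕ) :
    ‖S u (i * l) ((i + 1) * l) - (v * l) • e0 m‖ ≤
      v / 4 * l + 2 * l * (if bad v (v / 4) l u i then 1 else 0) := by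
  split_ifs with h
  · have h1 : ‖S u (i * l) ((i + 1) * l)‖ ≤ l := by
      refine (norm_S_le _ _ _).trans (le_of_eq ?_)
      congr 1
      rw [Nat.succ_mul]
      omega
    have h2 : ‖(v * l) • e0 m‖ ≤ l := by
      rw [norm_smul, norm_e0, mul_one, Real.norm_of_nonneg (by positivity)]
      exact mul_le_of_le_one_left (Nat.cast_nonneg _) hv1
    have h3 : 0 ≤ v / 4 * l := by positivity
    have h4 := norm_sub_le (S u (i * l) ((i + 1) * l)) ((v * l) • e0 m)
    linarith
  · unfold bad at h
    push Not at h
    linarith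

theorem blocks_bound {m : ℕ} {v : ℝ} (hv : 0 < v) (hv1 : v ≤ 1) (l : ℕ) (u : Om m) (a r : ℕ) :
    ‖S u (a * l) ((a + r) * l) - (v * (r * l)) • e0 m‖ ≤
      v / 4 * l * r + 2 * l *
        (((Finset.Ico a (a + r)).filter (bad v (v / 4) l u)).card : ℝ) := by
  induction r with
  | zero => simp [S_self]
  | succ r ih =>
    have h1 : S u (a * l) ((a + (r + 1)) * l) =
        S u (a * l) ((a + r) * l) + S u ((a + r) * l) ((a + r + 1) * l) := by
      rw [S_add u (Nat.mul_le_mul_right _ (by omega)) (Nat.mul_le_mul_right _ (by omega))]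
      rfl
    have h2 := card_split (bad v (v / 4) l u) (a := a) (b := a + r) (c := a + (r + 1))
      (by omega) (by omega)
    have h3 : ((Finset.Ico (a + r) (a + (r + 1))).filter (bad v (v / 4) l u)).card =
        if bad v (v / 4) l u (a + r) then 1 else 0 := by
      have h4 : Finset.Ico (a + r) (a + (r + 1)) = {a + r} := by
        ext x
        simp only [Finset.mem_Ico, Finset.mem_singleton]
        omega
      rw [h4, Finset.filter_singleton]
      split_ifs <;> simp
    have h5 := block_bound hv hv1 l u (a + r)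
    rw [h1, h2, h3]
    have h6 : S u (a * l) ((a + r) * l) + S u ((a + r) * l) ((a + r + 1) * l) -
        (v * (((r + 1 : ℕ) : ℝ) * l)) • e0 m =
        (S u (a * l) ((a + r) * l) - (v * (r * l)) • e0 m) +
          (S u ((a + r) * l) ((a + r + 1) * l) - (v * l) • e0 m) := by
      push_cast
      module
    rw [h6]
    refine (norm_add_le _ _).trans ?_
    push_cast
    split_ifs at h5 ⊢ with h7
    · linarith
    · linarith

/-- A segment of at most `l` steps. -/
theorem rest_bound {m : ℕ} {v : ℝ} (hv : 0 < v) (hv1 : v ≤ 1) {l : ℕ} (u : Om m) {a b : ℕ}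
    (hab : a ≤ b) (hl : b - a ≤ l) :
    ‖S u a b - (v * ((b - a : ℕ) : ℝ)) • e0 m‖ ≤ 2 * l := by
  have h1 : ‖S u a b‖ ≤ ((b - a : ℕ) : ℝ) := norm_S_le _ _ _
  have h2 : ‖(v * ((b - a : ℕ) : ℝ)) • e0 m‖ ≤ ((b - a : ℕ) : ℝ) := by
    rw [norm_smul, norm_e0, mul_one, Real.norm_of_nonneg (by positivity)]
    exact mul_le_of_le_one_left (Nat.cast_nonneg _) hv1
  have h3 : ((b - a : ℕ) : ℝ) ≤ l := by exact_mod_cast hl
  have h4 := norm_sub_le (S u a b) ((v * ((b - a : ℕ) : ℝ)) • e0 m)
  have := hab
  linarith

theorem cone_of_good {m : ℕ} {v : ℝ} (hv : 0 < v) (hv1 : v ≤ 1) {l : ℕ} (hl : 1 ≤ l) (u : Om m)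
    {K j : ℕ} (hF : ¬ VF (bad v (v / 4) l u) (v / 8) K j)
    (hB : ¬ VB (bad v (v / 4) l u) (v / 8) j) : Cone v (2 * l) u (K * l) (j * l) := by
  have hl0 : 0 < l := hl
  have hlR : (0 : ℝ) < l := by exact_mod_cast hl0
  intro t ht
  rcases le_total (j * l) t with h | h
  · obtain ⟨r, hr⟩ : ∃ r, r = (t - j * l) / l := ⟨_, rfl⟩
    have h1 : l * r ≤ t - j * l := by rw [hr]; exact Nat.mul_div_le _ _
    have h2 : t - j * l < l * r + l := by
      rw [hr]
      exact Nat.lt_mul_div_succ _ hl0
    have e1 : (j + r) * l = j * l + l * r := by ring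
    have hle : (j + r) * l ≤ t := by omega
    have hjr : j + r ≤ K := by
      by_contra hcon
      push Not at hcon
      have h3 : (K + 1) * l ≤ (j + r) * l := Nat.mul_le_mul_right _ hcon
      have h4 : (K + 1) * l = K * l + l := by ring
      omega
    have hcnt : (((Finset.Ico j (j + r)).filter (bad v (v / 4) l u)).card : ℝ) ≤ v / 8 * r := by
      rcases Nat.eq_zero_or_pos r with h0 | h0
      · rw [h0]
        simp
      · by_contra hcon
        push Not at hcon
        exact hF ⟨r, h0, hjr, hcon⟩
    have h3 := blocks_bound hv hv1 l u j r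
    have h4 := rest_bound hv hv1 (l := l) u hle (by omega)
    have h5 : S u 0 t - S u 0 (j * l) = S u (j * l) ((j + r) * l) + S u ((j + r) * l) t := by
      rw [S_add u (by omega) hle, ← S_add u (Nat.zero_le _) h]
      abel
    have h6 : ((t - (j + r) * l : ℕ) : ℝ) = (t : ℝ) - (j + r) * l := by
      rw [Nat.cast_sub hle]
      push_cast
      ring
    have h7 : (S u 0 t - S u 0 (j * l)) - (v * ((t : ℝ) - ((j * l : ℕ) : ℝ))) • e0 m =
        (S u (j * l) ((j + r) * l) - (v * (r * l)) • e0 m) +
        (S u ((j + r) * l) t - (v * ((t - (j + r) * l : ℕ) : ℝ)) • e0 m) := by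
      rw [h5, h6]
      push_cast
      module
    rw [h7]
    refine (norm_add_le _ _).trans ?_
    have h8 : (l : ℝ) * r ≤ |(t : ℝ) - ((j * l : ℕ) : ℝ)| := by
      refine le_trans ?_ (le_abs_self _)
      have h9 : j * l + l * r ≤ t := by omega
      have h10 : ((j * l : ℕ) : ℝ) + l * r ≤ t := by exact_mod_cast h9
      linarith
    have h9 := mul_le_mul_of_nonneg_left h8 (show (0 : ℝ) ≤ v / 2 by positivity)
    have h10 := mul_le_mul_of_nonneg_left hcnt (show (0 : ℝ) ≤ 2 * l by positivity)
    nlinarith
  · obtain ⟨r, hr⟩ : ∃ r, r = (j * l - t) / l := ⟨_, rfl⟩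
    have h1 : l * r ≤ j * l - t := by rw [hr]; exact Nat.mul_div_le _ _
    have h2 : j * l - t < l * r + l := by
      rw [hr]
      exact Nat.lt_mul_div_succ _ hl0
    have hrj : r ≤ j := by
      by_contra hcon
      push Not at hcon
      have h3 : l * (j + 1) ≤ l * r := Nat.mul_le_mul_left _ hcon
      have h4 : l * (j + 1) = j * l + l := by ring
      omega
    obtain ⟨i, rfl⟩ : ∃ i, j = i + r := ⟨j - r, by omega⟩
    have e1 : (i + r) * l = i * l + l * r := by ring
    have hle : t ≤ i * l := by omega
    have hcnt : (((Finset.Ico i (i + r)).filter (bad v (v / 4) l u)).card : ℝ) ≤ v / 8 * r := by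
      rcases Nat.eq_zero_or_pos r with h0 | h0
      · rw [h0]
        simp
      · by_contra hcon
        push Not at hcon
        refine hB ⟨r, h0, by omega, ?_⟩
        rw [Nat.add_sub_cancel]
        exact hcon
    have h3 := blocks_bound hv hv1 l u i r
    have h4 := rest_bound hv hv1 (l := l) u hle (by omega)
    have h5 : S u 0 t - S u 0 ((i + r) * l) = -(S u t (i * l) + S u (i * l) ((i + r) * l)) := by
      rw [S_add u hle (by omega), ← S_add u (Nat.zero_le _) h]
      abel
    have h6 : ((i * l - t : ℕ) : ℝ) = i * l - t := by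
      rw [Nat.cast_sub hle]
      push_cast
      ring
    have h7 : (S u 0 t - S u 0 ((i + r) * l)) -
        (v * ((t : ℝ) - (((i + r) * l : ℕ) : ℝ))) • e0 m =
        -((S u t (i * l) - (v * ((i * l - t : ℕ) : ℝ)) • e0 m) +
          (S u (i * l) ((i + r) * l) - (v * (r * l)) • e0 m)) := by
      rw [h5, h6]
      push_cast
      module
    rw [h7, norm_neg]
    refine (norm_add_le _ _).trans ?_
    have h8 : (l : ℝ) * r ≤ |(t : ℝ) - (((i + r) * l : ℕ) : ℝ)| := by
      rw [abs_sub_comm]
      refine le_trans ?_ (le_abs_self _)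
      have h9 : t + l * r ≤ (i + r) * l := by omega
      have h10 : (t : ℝ) + l * r ≤ (((i + r) * l : ℕ) : ℝ) := by exact_mod_cast h9
      linarith
    have h9 := mul_le_mul_of_nonneg_left h8 (show (0 : ℝ) ≤ v / 2 by positivity)
    have h10 := mul_le_mul_of_nonneg_left hcnt (show (0 : ℝ) ≤ 2 * l by positivity)
    nlinarith

theorem s_cone : S_CONE := by
  intro m v l hv hv1 hl u K
  have hη : 0 < v / 8 := by positivity
  have h1 := cover_fwd (bad v (v / 4) l u) hη K K 0 (by omega)
  have h2 := cover_bwd (bad v (v / 4) l u) hη K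
  have h3 : {j : ℕ | j < K ∧ ¬ Cone v (2 * l) u (K * l) (j * l)} ⊆
      (((Finset.Ico 0 K).filter (VF (bad v (v / 4) l u) (v / 8) K)) ∪
        ((Finset.Ico 0 (K + 1)).filter (VB (bad v (v / 4) l u) (v / 8))) : Finset ℕ) := by
    rintro j ⟨hj, hc⟩
    rw [Finset.mem_coe, Finset.mem_union, Finset.mem_filter, Finset.mem_filter, Finset.mem_Ico,
      Finset.mem_Ico]
    by_contra hcon
    push Not at hcon
    exact hc (cone_of_good hv hv1 hl u (hcon.1 ⟨by omega, hj⟩) (hcon.2 ⟨by omega, by omega⟩))
  have h4 := Set.ncard_le_ncard h3 (Finset.finite_toSet _)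
  rw [Set.ncard_coe_finset] at h4
  have h5 := h4.trans (Finset.card_union_le _ _)
  have h6 : {i : ℕ | i < K ∧ bad v (v / 4) l u i} =
      (((Finset.Ico 0 K).filter (bad v (v / 4) l u) : Finset ℕ) : Set ℕ) := by
    ext i
    simp
  rw [h6, Set.ncard_coe_finset]
  have h7 : ((({j : ℕ | j < K ∧ ¬ Cone v (2 * l) u (K * l) (j * l)}.ncard : ℕ) : ℝ)) ≤
      (((Finset.Ico 0 K).filter (VF (bad v (v / 4) l u) (v / 8) K)).card : ℝ) +
        (((Finset.Ico 0 (K + 1)).filter (VB (bad v (v / 4) l u) (v / 8))).card : ℝ) := by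
    exact_mod_cast h5
  refine h7.trans ?_
  rw [div_mul_eq_mul_div, le_div_iff₀ hv]
  nlinarith

end Pool.Agent.H549.HS
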